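import Mathlib

/-! # P76b.Arith: the interaction energy of the balanced occupation and the threshold -/

namespace Pool.Agent.P76b

/-- the number of pairs is at most `ν (ν - 1) + 1/4` per site, over two -/
theorem gen_bound {ν : ℝ} (k : ℕ) (hν : 0 < ν) :
    2 * (k : ℝ) - k * (k + 1) / ν ≤ ν - 1 + 1 / (4 * ν) := by
  have h1 : ν - 1 + 1 / (4 * ν) - (2 * (k : ℝ) - k * (k + 1) / ν) =
      (ν - k - 1 / 2) ^ 2 / ν := by
    field_simp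
    ring
  have h2 : 0 ≤ (ν - k - 1 / 2) ^ 2 / ν := by positivity
  linarith

/-- for `k ≥ 1` the sharp bound with the constant `9/8` -/
theorem nine_bound {ν : ℝ} {k : ℕ} (hk : 1 ≤ k) (hkν : (k : ℝ) ≤ ν) :
    1 + (2 * (k : ℝ) - k * (k + 1) / ν) ≤ 9 / 8 * ν := by
  have hk1 : (1 : ℝ) ≤ k := by exact_mod_cast hk
  have hν : 0 < ν := by linarith
  rcases hk.eq_or_lt with h | h
  · rw [← h]
    have h1 : 9 / 8 * ν - (1 + (2 * ((1 : ℕ) : ℝ) - ((1 : ℕ) : ℝ) * (((1 : ℕ) : ℝ) + 1) / ν)) =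
        (3 * ν - 4) ^ 2 / (8 * ν) := by
      push_cast
      field_simp
      ring
    have h2 : 0 ≤ (3 * ν - 4) ^ 2 / (8 * ν) := by positivity
    linarith
  · have h2 : (2 : ℝ) ≤ k := by exact_mod_cast h
    have h3 : (2 : ℝ) ≤ ν := h2.trans hkν
    have h4 := gen_bound k hν
    have h5 : 1 / (4 * ν) ≤ ν / 8 := by
      rw [div_le_div_iff₀ (by positivity) (by norm_num)]
      nlinarith
    linarith

/-- The choice of the cell size `ℓ₁ > R` and of the gap `η`. -/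
theorem threshold {M R V ρs : ℝ} (hM : 0 ≤ M) (hR : 0 < R) (hρs : 0 < ρs)
    (hcase : (9 / 8 * (M * R ^ 3) < V ∧ M < ρs * V) ∨
      (M * R ^ 3 < V ∧ M < 4 * R ^ 3 * (V - M * R ^ 3) * ρs ^ 2)) :
    ∃ ℓ₁ > R, ∃ η > 0, ∀ ρ ≥ ρs, ∀ ℓ : ℝ, R ≤ ℓ → ℓ ≤ ℓ₁ → ∀ (k : ℕ),
      (k : ℝ) ≤ ρ * ℓ ^ 3 →
      η * ρ ≤ ρ * V - M - M * (2 * (k : ℝ) - k * (k + 1) / (ρ * ℓ ^ 3)) := by
  rcases hcase with ⟨h1, h2⟩ | ⟨h1, h2⟩
  · -- case `9/8`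
    have hcont : Filter.Tendsto (fun ℓ : ℝ => 9 / 8 * (M * ℓ ^ 3)) (nhdsWithin R (Set.Ioi R))
        (nhds (9 / 8 * (M * R ^ 3))) := by
      have : Continuous fun ℓ : ℝ => 9 / 8 * (M * ℓ ^ 3) := by fun_prop
      exact this.continuousWithinAt
    obtain ⟨ℓ₁, hℓ₁, hR1⟩ := ((hcont.eventually (gt_mem_nhds h1)).and
      self_mem_nhdsWithin).exists
    have hR1' : R < ℓ₁ := hR1
    refine ⟨ℓ₁, hR1', min (V - 9 / 8 * (M * ℓ₁ ^ 3)) (V - M / ρs), ?_, ?_⟩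
    · refine lt_min (by linarith) ?_
      rw [sub_pos, div_lt_iff₀ hρs]
      linarith
    intro ρ hρ ℓ hℓ hℓ' k hk
    have hρ0 : 0 < ρ := lt_of_lt_of_le hρs hρ
    have hℓ0 : 0 < ℓ := lt_of_lt_of_le hR hℓ
    rcases Nat.eq_zero_or_pos k with h0 | h0
    · rw [h0]
      simp only [Nat.cast_zero, mul_zero, zero_mul, zero_div, sub_zero]
      have h3 : min (V - 9 / 8 * (M * ℓ₁ ^ 3)) (V - M / ρs) * ρ ≤ (V - M / ρs) * ρ := by
        gcongr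
        exact min_le_right _ _
      have h4 : M ≤ M / ρs * ρ := by
        rw [div_mul_eq_mul_div, le_div_iff₀ hρs]
        gcongr
      linarith
    · have h3 := nine_bound h0 hk
      have h4 : min (V - 9 / 8 * (M * ℓ₁ ^ 3)) (V - M / ρs) * ρ ≤
          (V - 9 / 8 * (M * ℓ₁ ^ 3)) * ρ := by
        gcongr
        exact min_le_left _ _
      have h5 : M * (9 / 8 * (ρ * ℓ ^ 3)) ≤ M * (9 / 8 * (ρ * ℓ₁ ^ 3)) := by gcongr
      have h6 := mul_le_mul_of_nonneg_left h3 hM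
      nlinarith
  · have hcont : Filter.Tendsto (fun ℓ : ℝ => V - M * ℓ ^ 3 - M / (4 * R ^ 3 * ρs ^ 2))
        (nhdsWithin R (Set.Ioi R)) (nhds (V - M * R ^ 3 - M / (4 * R ^ 3 * ρs ^ 2))) := by
      have : Continuous fun ℓ : ℝ => V - M * ℓ ^ 3 - M / (4 * R ^ 3 * ρs ^ 2) := by fun_prop
      exact this.continuousWithinAt
    have hpos : 0 < V - M * R ^ 3 - M / (4 * R ^ 3 * ρs ^ 2) := by
      rw [sub_pos, div_lt_iff₀ (by positivity)]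
      linarith
    obtain ⟨ℓ₁, hℓ₁, hR1⟩ := ((hcont.eventually (lt_mem_nhds hpos)).and
      self_mem_nhdsWithin).exists
    have hR1' : R < ℓ₁ := hR1
    refine ⟨ℓ₁, hR1', V - M * ℓ₁ ^ 3 - M / (4 * R ^ 3 * ρs ^ 2), hℓ₁, ?_⟩
    intro ρ hρ ℓ hℓ hℓ' k hk
    have hρ0 : 0 < ρ := lt_of_lt_of_le hρs hρ
    have hℓ0 : 0 < ℓ := lt_of_lt_of_le hR hℓ
    have hν0 : 0 < ρ * ℓ ^ 3 := by positivity
    have h3 := mul_le_mul_of_nonneg_left (gen_bound k hν0) hM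
    have h4 : M * (1 / (4 * (ρ * ℓ ^ 3))) ≤ M / (4 * R ^ 3 * ρs ^ 2) * ρ := by
      have h5 : 1 / (4 * (ρ * ℓ ^ 3)) ≤ 1 / (4 * R ^ 3 * ρs ^ 2) * ρ := by
        rw [div_mul_eq_mul_div, one_mul, div_le_div_iff₀ (by positivity) (by positivity), one_mul]
        calc 4 * R ^ 3 * ρs ^ 2 ≤ 4 * ℓ ^ 3 * ρ ^ 2 := by gcongr
          _ = ρ * (4 * (ρ * ℓ ^ 3)) := by ring
      calc M * (1 / (4 * (ρ * ℓ ^ 3))) ≤ M * (1 / (4 * R ^ 3 * ρs ^ 2) * ρ) := by gcongr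
        _ = M / (4 * R ^ 3 * ρs ^ 2) * ρ := by ring
    have h5 : M * (ρ * ℓ ^ 3) ≤ M * (ρ * ℓ₁ ^ 3) := by gcongr
    nlinarith

end Pool.Agent.P76b
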