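import Pool.Agent.Lib.P76s.Defs

/-! # P76b.Bump: a smooth 1-periodic bump and its rescaling -/

open MeasureTheory Filter Topology
open scoped ENNReal NNReal BigOperators ContDiff

namespace Pool.Agent.P76b

namespace BumpAux

theorem Ico_eq (g : ℝ → ℝ) {L : ℝ} (hL : 0 ≤ L) :
    ∫ t in Set.Ico (0:ℝ) L, g t = ∫ t in (0:ℝ)..L, g t := by
  rw [intervalIntegral.integral_of_le hL, MeasureTheory.integral_Ico_eq_integral_Ioo,
    MeasureTheory.integral_Ioc_eq_integral_Ioo]

theorem scale {g : ℝ → ℝ} (hg : Continuous g) (hper : Function.Periodic g 1) {L : ℝ}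
    (hL : 0 < L) {m : ℕ} (hm : 0 < m) :
    ∫ t in Set.Ico (0:ℝ) L, g (m * t / L) = L * ∫ t in Set.Ico (0:ℝ) 1, g t := by
  rw [Ico_eq _ hL.le, Ico_eq _ zero_le_one]
  have hm' : (m : ℝ) ≠ 0 := by positivity
  have hc : (m : ℝ) / L ≠ 0 := by positivity
  have e : ∀ t : ℝ, (m : ℝ) * t / L = m / L * t := fun t => by ring
  simp only [e]
  rw [intervalIntegral.integral_comp_mul_left g hc, mul_zero, div_mul_cancel₀ _ hL.ne']
  have h2 := hper.intervalIntegral_add_zsmul_eq (m : ℤ) 0
    (fun _ _ => hg.intervalIntegrable _ _)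
  rw [zero_add, zero_add] at h2
  simp only [zsmul_eq_mul, Int.cast_natCast, mul_one] at h2
  rw [h2, smul_eq_mul, inv_div]
  field_simp

theorem periodic_deriv {θ : ℝ → ℝ} (hper : Function.Periodic θ 1) :
    Function.Periodic (deriv θ) 1 := by
  intro x
  have h : (fun y => θ (y + 1)) = θ := funext hper
  rw [← deriv_comp_add_const, h]

end BumpAux

open BumpAux

/-- e.g. `θ t = expNegInvGlue (cos (2πt) - cos (2πt₀))` -/
theorem exists_theta {t₀ : ℝ} (h0 : 0 < t₀) (h1 : t₀ < 1 / 2) :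
    ∃ θ : ℝ → ℝ, ContDiff ℝ ∞ θ ∧ Function.Periodic θ 1 ∧
      (∀ t, θ t ≠ 0 → |t - round t| < t₀) ∧ 0 < ∫ t in Set.Ico (0:ℝ) 1, θ t ^ 2 := by
  have hpi := Real.pi_pos
  have hcos : ∀ {a b : ℝ}, 0 ≤ a → b ≤ 1 / 2 → a < b →
      Real.cos (2 * Real.pi * b) < Real.cos (2 * Real.pi * a) := by
    intro a b ha hb hab
    apply Real.strictAntiOn_cos
    · constructor
      · positivity
      · nlinarith
    · constructor
      · nlinarith
      · nlinarith
    · nlinarith
  have hsm : ContDiff ℝ ∞ (fun t : ℝ =>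
      expNegInvGlue (Real.cos (2 * Real.pi * t) - Real.cos (2 * Real.pi * t₀))) := by
    apply expNegInvGlue.contDiff.comp
    exact (Real.contDiff_cos.comp (contDiff_const.mul contDiff_id)).sub contDiff_const
  refine ⟨fun t => expNegInvGlue (Real.cos (2 * Real.pi * t) - Real.cos (2 * Real.pi * t₀)),
    hsm, ?_, ?_, ?_⟩
  · intro t
    simp only
    congr 2
    rw [show 2 * Real.pi * (t + 1) = 2 * Real.pi * t + 2 * Real.pi by ring, Real.cos_add_two_pi]
  · intro t ht
    by_contra hcon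
    rw [not_lt] at hcon
    apply ht
    apply expNegInvGlue.zero_of_nonpos
    have e : Real.cos (2 * Real.pi * t) = Real.cos (2 * Real.pi * |t - round t|) := by
      rw [show 2 * Real.pi * |t - round t| = |2 * Real.pi * (t - round t)| by
        rw [abs_mul, abs_of_pos (by positivity : (0:ℝ) < 2 * Real.pi)], Real.cos_abs,
        show 2 * Real.pi * (t - round t) = 2 * Real.pi * t - (round t : ℤ) * (2 * Real.pi) by ring,
        Real.cos_sub_int_mul_two_pi]
    rw [e]
    rcases hcon.eq_or_lt with h | h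
    · rw [← h, sub_self]
    · have := hcos h0.le (abs_sub_round t) h
      linarith
  · rw [Ico_eq _ zero_le_one]
    apply intervalIntegral.integral_pos zero_lt_one
    · exact (hsm.continuous.pow 2).continuousOn
    · intro x _
      exact sq_nonneg _
    · refine ⟨0, ⟨le_rfl, zero_le_one⟩, ?_⟩
      have := hcos (le_refl (0:ℝ)) h1.le h0
      rw [mul_zero] at this
      have h2 := expNegInvGlue.pos_of_pos (sub_pos.2 this)
      simp only [mul_zero]
      positivity

theorem scale_sq {θ : ℝ → ℝ} (hθ : ContDiff ℝ ∞ θ) (hper : Function.Periodic θ 1) {L : ℝ}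
    (hL : 0 < L) {m : ℕ} (hm : 0 < m) :
    ∫ t in Set.Ico (0:ℝ) L, θ (m * t / L) ^ 2 = L * ∫ t in Set.Ico (0:ℝ) 1, θ t ^ 2 := by
  exact scale (g := fun t => θ t ^ 2) (hθ.continuous.pow 2)
    (fun x => by simp only; rw [hper x]) hL hm

theorem scale_deriv {θ : ℝ → ℝ} (hθ : ContDiff ℝ ∞ θ) (hper : Function.Periodic θ 1) {L : ℝ}
    (hL : 0 < L) {m : ℕ} (hm : 0 < m) :
    ∫ t in Set.Ico (0:ℝ) L, (deriv (fun t => θ (m * t / L)) t) ^ 2 =
      (m:ℝ) ^ 2 / L * ∫ t in Set.Ico (0:ℝ) 1, (deriv θ t) ^ 2 := by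
  have hcd : Continuous (deriv θ) := hθ.continuous_deriv (by simp)
  have hd : ∀ t : ℝ, deriv (fun t => θ (m * t / L)) t ^ 2 =
      (m / L : ℝ) ^ 2 * (deriv θ (m * t / L)) ^ 2 := by
    intro t
    have e : (fun t : ℝ => θ (m * t / L)) = fun t => θ (m / L * t) := by
      funext t
      congr 1
      ring
    rw [e, deriv_comp_mul_left, smul_eq_mul, show (m:ℝ) / L * t = m * t / L by ring]
    ring
  simp only [hd]
  rw [MeasureTheory.integral_const_mul, scale (g := fun t => deriv θ t ^ 2) (hcd.pow 2)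
    (fun x => by simp only; rw [periodic_deriv hper x]) hL hm]
  field_simp

end Pool.Agent.P76b
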