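import Pool.Agent.Lib.P76b.SiteDefs
import Pool.Agent.Lib.P76s.LogM

/-! # P76b.SiteCount: numbers of pairs at the same site

`same` is invariant under permutations (`2 * same a = #{(i, j) | i ≠ j, a i = a j}`).  Balanced
assignment (`P76s.exists_balanced`: all occupation numbers are `k` or `k+1`, `k = N / m^3`; its proof gives
this, restate it): `2 * same a = ∑_c n_c (n_c - 1)` and `n (n-1) = 2 k n - k (k+1)` for `n = k, k+1`. -/

open MeasureTheory Filter Topology
open scoped ENNReal NNReal BigOperators ContDiff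

namespace Pool.Agent.P76b

open Pool.Agent.P76s

theorem occ_eq_sum {N m : ℕ} (a : Fin N → Fin 3 → Fin m) (c : Fin 3 → Fin m) :
    occ a c = ∑ i, if a i = c then 1 else 0 := by
  unfold occ
  rw [Finset.card_filter]

theorem occ_comp {N m : ℕ} (a : Fin N → Fin 3 → Fin m) (σ : Equiv.Perm (Fin N))
    (c : Fin 3 → Fin m) : occ (a ∘ σ) c = occ a c := by
  rw [occ_eq_sum, occ_eq_sum]
  exact Equiv.sum_comp σ (fun i => if a i = c then 1 else 0)

theorem ind_comm {N m : ℕ} (a : Fin N → Fin 3 → Fin m) (i j : Fin N) :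
    (if a i = a j then 1 else 0 : ℕ) = if a j = a i then 1 else 0 := by
  by_cases h : a i = a j
  · rw [if_pos h, if_pos h.symm]
  · rw [if_neg h, if_neg (fun h' => h h'.symm)]

theorem sum_pairs {N m : ℕ} (a : Fin N → Fin 3 → Fin m) :
    ∑ i, ∑ j, (if a i = a j then 1 else 0) = N + 2 * same a := by
  classical
  have hs : same a = ∑ i, ∑ j, if i < j then (if a i = a j then 1 else 0) else 0 := by
    unfold same
    refine Finset.sum_congr rfl fun i _ => ?_
    have : Finset.Ioi i = Finset.univ.filter (fun j => i < j) := by ext; simp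
    rw [this, Finset.sum_filter]
  have hs' : same a = ∑ i, ∑ j, if j < i then (if a i = a j then 1 else 0) else 0 := by
    rw [hs, Finset.sum_comm]
    refine Finset.sum_congr rfl fun i _ => Finset.sum_congr rfl fun j _ => ?_
    rw [ind_comm a j i]
  have hd : (N : ℕ) = ∑ i : Fin N, ∑ j, if j = i then (if a i = a j then 1 else 0) else 0 := by
    simp
  have h1 : ∀ i j : Fin N, (if a i = a j then 1 else 0) =
      (if j = i then (if a i = a j then 1 else 0) else 0) +
      ((if i < j then (if a i = a j then 1 else 0) else 0) +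
      (if j < i then (if a i = a j then 1 else 0) else 0)) := by
    intro i j
    rcases lt_trichotomy i j with h | h | h
    · rw [if_neg h.ne', if_pos h, if_neg h.le.not_gt]; simp
    · subst h; simp
    · rw [if_neg h.ne, if_neg h.le.not_gt, if_pos h]; simp
  calc ∑ i, ∑ j, (if a i = a j then 1 else 0)
      = ∑ i, ∑ j, ((if j = i then (if a i = a j then 1 else 0) else 0) +
      ((if i < j then (if a i = a j then 1 else 0) else 0) +
      (if j < i then (if a i = a j then 1 else 0) else 0))) :=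
        Finset.sum_congr rfl fun i _ => Finset.sum_congr rfl fun j _ => h1 i j
    _ = N + (same a + same a) := by
        simp only [Finset.sum_add_distrib]
        rw [← hs, ← hs', ← hd]
    _ = N + 2 * same a := by ring

theorem sum_occ_sq {N m : ℕ} (a : Fin N → Fin 3 → Fin m) :
    ∑ c, occ a c * occ a c = N + 2 * same a := by
  classical
  rw [← sum_pairs]
  have h1 : ∀ i : Fin N, ∑ j, (if a i = a j then 1 else 0) = occ a (a i) := by
    intro i
    rw [occ_eq_sum]
    exact Finset.sum_congr rfl fun j _ => ind_comm a i j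
  rw [Finset.sum_congr rfl fun i _ => h1 i,
    ← Finset.sum_fiberwise' Finset.univ a (fun c => occ a c)]
  refine Finset.sum_congr rfl fun c _ => ?_
  rw [Finset.sum_const, smul_eq_mul]
  rfl

theorem same_of_mem_orb {N m : ℕ} {a α : Fin N → Fin 3 → Fin m} (h : α ∈ orb a) :
    same α = same a := by
  unfold orb at h
  rw [Finset.mem_image] at h
  obtain ⟨σ, -, rfl⟩ := h
  have h1 := sum_occ_sq (a ∘ σ)
  have h2 := sum_occ_sq a
  simp only [occ_comp] at h1
  omega

theorem exists_balanced' (N : ℕ) {m : ℕ} (hm : 0 < m) :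
    ∃ a : Fin N → Fin 3 → Fin m, ∀ c, occ a c = N / m ^ 3 ∨ occ a c = N / m ^ 3 + 1 := by
  have hM : 0 < m ^ 3 := by positivity
  let e : (Fin 3 → Fin m) ≃ Fin (m ^ 3) := finFunctionFinEquiv
  refine ⟨fun i => e.symm ⟨(i : ℕ) % m ^ 3, Nat.mod_lt _ hM⟩, fun c => ?_⟩
  have h1 : occ (fun i : Fin N => e.symm ⟨(i : ℕ) % m ^ 3, Nat.mod_lt _ hM⟩) c =
      N.count (fun k => k ≡ (e c : ℕ) [MOD m ^ 3]) := by
    unfold occ
    rw [Nat.count_eq_card_filter_range, Finset.card_filter, Finset.card_filter,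
      ← Fin.sum_univ_eq_sum_range
        (fun k => if k ≡ (e c : ℕ) [MOD m ^ 3] then 1 else 0) N]
    refine Finset.sum_congr rfl fun i _ => ?_
    have h2 : (e.symm ⟨(i : ℕ) % m ^ 3, Nat.mod_lt _ hM⟩ = c) ↔
        ((i : ℕ) ≡ (e c : ℕ) [MOD m ^ 3]) := by
      rw [Equiv.symm_apply_eq, Fin.ext_iff]
      show (i : ℕ) % m ^ 3 = (e c : ℕ) ↔ (i : ℕ) % m ^ 3 = (e c : ℕ) % m ^ 3
      rw [Nat.mod_eq_of_lt (e c).2]
    by_cases h : e.symm ⟨(i : ℕ) % m ^ 3, Nat.mod_lt _ hM⟩ = c
    · rw [if_pos h, if_pos (h2.1 h)]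
    · rw [if_neg h, if_neg (fun h' => h (h2.2 h'))]
  rw [h1, Nat.count_modEq_card _ hM]
  split_ifs
  · exact Or.inr rfl
  · exact Or.inl rfl

theorem exists_same (N : ℕ) {m : ℕ} (hm : 0 < m) : ∃ a : Fin N → Fin 3 → Fin m,
    (same a : ℝ) = ((N / m ^ 3 : ℕ) : ℝ) * N -
      ((N / m ^ 3 : ℕ) : ℝ) * (((N / m ^ 3 : ℕ) : ℝ) + 1) / 2 * m ^ 3 := by
  obtain ⟨a, ha⟩ := exists_balanced' N hm
  refine ⟨a, ?_⟩
  have h1 : ((∑ c, occ a c * occ a c : ℕ) : ℝ) = ((N + 2 * same a : ℕ) : ℝ) := by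
    rw [sum_occ_sq a]
  have h2 : ((∑ c, occ a c : ℕ) : ℝ) = (N : ℝ) := by rw [sum_occ a]
  set q : ℝ := ((N / m ^ 3 : ℕ) : ℝ) with hq
  have h3 : ∀ c, (occ a c : ℝ) * occ a c = (2 * q + 1) * occ a c - q * (q + 1) := by
    intro c
    rcases ha c with h | h
    · rw [h, ← hq]; ring
    · rw [h]; push_cast; rw [← hq]; ring
  push_cast at h1 h2
  rw [Finset.sum_congr rfl fun c _ => h3 c, Finset.sum_sub_distrib, ← Finset.mul_sum, h2,
    Finset.sum_const, Finset.card_univ, Fintype.card_fun, Fintype.card_fin, Fintype.card_fin,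
    nsmul_eq_mul] at h1
  push_cast at h1
  linarith

end Pool.Agent.P76b
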