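import Pool.Agent.Lib.P76b.SiteDefs

/-! # P76b.SitePair: two particles at different sites do not interact, two at the same site interact
by at most `M` (at most one term of the periodization is not zero)

`y b/ℓ` is within `t₀` of an integer `p b`, `p b % m = c b`; `z b/ℓ` within `t₀` of `q b`, `q b % m = c' b`.
A term `w (y - z + L n) ≠ 0` has `|y b - z b + L n b| < R ≤ (1 - 2 t₀) ℓ` for all `b`, so
`p b - q b + m * n b = 0` for all `b`: hence `c = c'` and `n` is unique. -/

open MeasureTheory Filter Topology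
open scoped ENNReal NNReal BigOperators ContDiff

namespace Pool.Agent.P76b

open Pool.Agent.P76s

namespace SitePairAux

lemma site_ne {m : ℕ} {L : ℝ} {φ : ℝ → ℝ} {j : Fin m} {t : ℝ} (h : site m L φ j t ≠ 0) :
    round (t / (L / m)) % (m : ℤ) = ((j : ℕ) : ℤ) ∧ φ t ≠ 0 := by
  unfold site at h
  by_cases h1 : round (t / (L / m)) % (m : ℤ) = ((j : ℕ) : ℤ)
  · rw [if_pos h1] at h
    exact ⟨h1, h⟩
  · rw [if_neg h1] at h
    exact absurd rfl h

lemma coord {m : ℕ} {L : ℝ} {φ : ℝ → ℝ} {t₀ : ℝ} (h : SiteData m L φ t₀) {R : ℝ}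
    (hR : R ≤ (1 - 2 * t₀) * (L / m)) {y z : ℝ} (hy : φ y ≠ 0) (hz : φ z ≠ 0) {n : ℤ}
    (hn : |y - z + L * n| < R) :
    round (y / (L / m)) - round (z / (L / m)) + (m : ℤ) * n = 0 := by
  have hm : (0 : ℝ) < m := by exact_mod_cast h.m_pos
  have hL := h.L_pos
  have hℓ : 0 < L / m := div_pos hL hm
  have h1 := h.sup y hy
  have h2 := h.sup z hz
  have h3 : |y / (L / m) - z / (L / m) + m * n| < 1 - 2 * t₀ := by
    have e : y / (L / m) - z / (L / m) + m * n = (y - z + L * n) / (L / m) := by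
      field_simp
    rw [e, abs_div, abs_of_pos hℓ, div_lt_iff₀ hℓ]
    linarith
  rw [abs_lt] at h1 h2 h3
  have h4 : ((round (y / (L / m)) : ℤ) : ℝ) - (round (z / (L / m)) : ℤ) + m * n < 1 := by linarith
  have h5 : -1 < ((round (y / (L / m)) : ℤ) : ℝ) - (round (z / (L / m)) : ℤ) + m * n := by linarith
  have h6 : round (y / (L / m)) - round (z / (L / m)) + (m : ℤ) * n < 1 := by exact_mod_cast h4
  have h7 : -1 < round (y / (L / m)) - round (z / (L / m)) + (m : ℤ) * n := by exact_mod_cast h5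
  have h8 := Int.add_one_le_iff.2 h6
  have h9 := Int.add_one_le_iff.2 h7
  linarith

end SitePairAux

open SitePairAux in
theorem W_site_le {m : ℕ} {L : ℝ} {φ : ℝ → ℝ} {t₀ : ℝ} (h : SiteData m L φ t₀) {R M : ℝ}
    (hR : R ≤ (1 - 2 * t₀) * (L / m)) {w : (Fin 3 → ℝ) → ℝ≥0∞}
    (hwM : ∀ y, w y ≤ ENNReal.ofReal M) (hw0 : ∀ y, (∃ b, R ≤ |y b|) → w y = 0)
    {y z : Fin 3 → ℝ} {c c' : Fin 3 → Fin m} (hy : ∀ b, site m L φ (c b) (y b) ≠ 0)
    (hz : ∀ b, site m L φ (c' b) (z b) ≠ 0) :
    periodize L w (y - z) ≤ if c = c' then ENNReal.ofReal M else 0 := by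
  have hm : (0 : ℤ) < m := by exact_mod_cast h.m_pos
  have key : ∀ n : Fin 3 → ℤ, w (y - z + lat L n) ≠ 0 → ∀ b,
      round (y b / (L / m)) - round (z b / (L / m)) + (m : ℤ) * n b = 0 := by
    intro n hn b
    refine coord h hR (site_ne (hy b)).2 (site_ne (hz b)).2 ?_
    by_contra hlt
    exact hn (hw0 _ ⟨b, not_lt.1 hlt⟩)
  by_cases hc : c = c'
  · rw [if_pos hc]
    unfold periodize
    rw [tsum_eq_single (fun b => (round (z b / (L / m)) - round (y b / (L / m))) / (m : ℤ))]
    · exact hwM _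
    · intro n hn
      by_contra hne
      apply hn
      funext b
      have h1 := key n hne b
      have h2 : round (z b / (L / m)) - round (y b / (L / m)) = (m : ℤ) * n b := by linarith
      rw [h2, Int.mul_ediv_cancel_left _ hm.ne']
  · rw [if_neg hc]
    unfold periodize
    refine le_of_eq (ENNReal.tsum_eq_zero.2 fun n => ?_)
    by_contra hne
    apply hc
    funext b
    have h1 := key n hne b
    have h2 := (site_ne (hy b)).1
    have h3 := (site_ne (hz b)).1
    have h4 : round (z b / (L / m)) = round (y b / (L / m)) + (m : ℤ) * n b := by linarith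
    rw [h4, Int.add_mul_emod_self_left, h2] at h3
    apply Fin.ext
    exact_mod_cast h3

end Pool.Agent.P76b
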