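import Pool.Agent.Lib.P76s.PiDens

/-! # P76b.ProductK: mass and kinetic energy of a product trial state -/

open MeasureTheory Filter Topology
open scoped ENNReal NNReal BigOperators ContDiff

namespace Pool.Agent.P76b

open Pool.Agent.P76s

/-- one-particle function -/
noncomputable def F (φ : ℝ → ℝ) (y : Fin 3 → ℝ) : ℝ := ∏ b, φ (y b)

/-- the product trial function -/
noncomputable def tr (N : ℕ) (φ : ℝ → ℝ) (x : Conf N) : ℝ := ∏ i, F φ (x i)

namespace ProductKAux

variable {N : ℕ} {L : ℝ} {φ : ℝ → ℝ}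

lemma contDiff_F (hφ : ContDiff ℝ ∞ φ) : ContDiff ℝ ∞ (F φ) := by
  unfold F
  refine contDiff_prod fun b _ => ?_
  exact hφ.comp (contDiff_apply ℝ ℝ b)

lemma contDiff_tr (hφ : ContDiff ℝ ∞ φ) : ContDiff ℝ ∞ (tr N φ) := by
  unfold tr
  refine contDiff_prod fun i _ => ?_
  exact (contDiff_F hφ).comp (contDiff_apply ℝ (Fin 3 → ℝ) i)

lemma confBox_restrict (N : ℕ) (L : ℝ) : (volume : Measure (Conf N)).restrict (confBox N L) =
    Measure.pi fun _ : Fin N => (volume : Measure (Fin 3 → ℝ)).restrict (box L) := by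
  unfold confBox
  rw [volume_pi, Measure.restrict_pi_pi]

lemma box_restrict (L : ℝ) : (volume : Measure (Fin 3 → ℝ)).restrict (box L) =
    Measure.pi fun _ : Fin 3 => (volume : Measure ℝ).restrict (Set.Ico 0 L) := by
  unfold box
  rw [volume_pi, Measure.restrict_pi_pi]

/-- the integral of a product over all coordinates -/
lemma lint_prod (H : Fin N → Fin 3 → ℝ → ℝ≥0∞) (hH : ∀ i b, Measurable (H i b)) :
    ∫⁻ x in confBox N L, ∏ i, ∏ b, H i b (x i b) =
      ∏ i, ∏ b, ∫⁻ t in Set.Ico (0:ℝ) L, H i b t := by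
  rw [confBox_restrict,
    lintegral_pi_prod (fun _ : Fin N => (volume : Measure (Fin 3 → ℝ)).restrict (box L))
      (fun i (y : Fin 3 → ℝ) => ∏ b, H i b (y b))
      (fun i => Finset.measurable_prod _ fun b _ => (hH i b).comp (measurable_pi_apply b))]
  refine Finset.prod_congr rfl fun i _ => ?_
  rw [box_restrict,
    lintegral_pi_prod (fun _ : Fin 3 => (volume : Measure ℝ).restrict (Set.Ico 0 L))
      (fun b (t : ℝ) => H i b t) (fun b => hH i b)]

lemma lint_one {f : ℝ → ℝ} (hf : Continuous f) {A : ℝ}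
    (hA : ∫ t in Set.Ico (0:ℝ) L, f t ^ 2 = A) :
    ∫⁻ t in Set.Ico (0:ℝ) L, ENNReal.ofReal (f t ^ 2) = ENNReal.ofReal A := by
  have hi : IntegrableOn (fun t => f t ^ 2) (Set.Ico (0:ℝ) L) volume :=
    ((hf.pow 2).continuousOn.integrableOn_compact isCompact_Icc).mono_set Set.Ico_subset_Icc_self
  rw [← ofReal_integral_eq_lintegral_ofReal hi
    (Filter.Eventually.of_forall fun t => by positivity), hA]

/-- the square of a partial derivative, as a product -/
noncomputable def G (φ : ℝ → ℝ) (p q : Fin N × Fin 3) (s : ℝ) : ℝ :=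
  (if q = p then deriv φ s else φ s) ^ 2

lemma tr_line (x : Conf N) (i : Fin N) (b : Fin 3) (t : ℝ) :
    tr N φ (x + t • (Pi.single i (Pi.single b (1 : ℝ)) : Conf N)) =
      (∏ q ∈ (Finset.univ : Finset (Fin N × Fin 3)).erase (i, b), φ (x q.1 q.2)) *
        φ (x i b + t) := by
  unfold tr F
  rw [← Fintype.prod_prod_type' (fun (j : Fin N) (c : Fin 3) =>
      φ ((x + t • (Pi.single i (Pi.single b (1 : ℝ)) : Conf N)) j c)),
    ← Finset.prod_erase_mul Finset.univ _ (Finset.mem_univ (i, b))]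
  congr 1
  · refine Finset.prod_congr rfl fun q hq => ?_
    have hne : q ≠ (i, b) := Finset.ne_of_mem_erase hq
    congr 1
    rw [Pi.add_apply, Pi.add_apply, Pi.smul_apply, Pi.smul_apply]
    by_cases h1 : q.1 = i
    · have h2 : q.2 ≠ b := fun h => hne (Prod.ext h1 h)
      rw [h1, Pi.single_eq_same, Pi.single_eq_of_ne h2, smul_zero, add_zero]
    · rw [Pi.single_eq_of_ne h1, Pi.zero_apply, smul_zero, add_zero]
  · simp

lemma fderiv_tr (hφ : ContDiff ℝ ∞ φ) (x : Conf N) (i : Fin N) (b : Fin 3) :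
    fderiv ℝ (fun x => ((tr N φ x : ℝ) : ℂ)) x (Pi.single i (Pi.single b 1)) =
      (((∏ q ∈ (Finset.univ : Finset (Fin N × Fin 3)).erase (i, b), φ (x q.1 q.2)) *
        deriv φ (x i b) : ℝ) : ℂ) := by
  have hd : DifferentiableAt ℝ (tr N φ) x :=
    ((contDiff_tr hφ).differentiable (by simp)) x
  have h1 : HasFDerivAt (fun x => ((tr N φ x : ℝ) : ℂ))
      (Complex.ofRealCLM.comp (fderiv ℝ (tr N φ) x)) x :=
    Complex.ofRealCLM.hasFDerivAt.comp x hd.hasFDerivAt
  rw [h1.fderiv]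
  have h2 : fderiv ℝ (tr N φ) x (Pi.single i (Pi.single b 1)) =
      (∏ q ∈ (Finset.univ : Finset (Fin N × Fin 3)).erase (i, b), φ (x q.1 q.2)) *
        deriv φ (x i b) := by
    have h3 : HasDerivAt (fun t : ℝ => x + t • (Pi.single i (Pi.single b (1 : ℝ)) : Conf N))
        (Pi.single i (Pi.single b (1 : ℝ)) : Conf N) 0 := by
      have := ((hasDerivAt_id (0 : ℝ)).smul_const
        (Pi.single i (Pi.single b (1 : ℝ)) : Conf N)).const_add x
      simpa using this
    have h4 : HasFDerivAt (tr N φ) (fderiv ℝ (tr N φ) x)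
        (x + (0 : ℝ) • (Pi.single i (Pi.single b (1 : ℝ)) : Conf N)) := by
      have h5 : x + (0 : ℝ) • (Pi.single i (Pi.single b (1 : ℝ)) : Conf N) = x := by simp
      rw [h5]
      exact hd.hasFDerivAt
    have h6 := h4.comp_hasDerivAt (0 : ℝ) h3
    have h7 : (tr N φ ∘ fun t : ℝ => x + t • (Pi.single i (Pi.single b (1 : ℝ)) : Conf N)) =
        fun t : ℝ => (∏ q ∈ (Finset.univ : Finset (Fin N × Fin 3)).erase (i, b),
          φ (x q.1 q.2)) * φ (x i b + t) := by
      funext t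
      exact tr_line x i b t
    rw [h7] at h6
    have h8 : HasDerivAt (fun t : ℝ => φ (x i b + t)) (deriv φ (x i b)) 0 := by
      have h9 : HasDerivAt φ (deriv φ (x i b)) (x i b + 0) := by
        rw [add_zero]
        exact ((hφ.differentiable (by simp)) (x i b)).hasDerivAt
      have h10 : HasDerivAt (fun t : ℝ => x i b + t) 1 0 := (hasDerivAt_id (0 : ℝ)).const_add _
      have := h9.comp (0 : ℝ) h10
      rw [mul_one] at this
      exact this
    exact h6.unique (h8.const_mul _)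
  rw [ContinuousLinearMap.comp_apply, h2]
  rfl

lemma norm_fderiv_sq (hφ : ContDiff ℝ ∞ φ) (x : Conf N) (i : Fin N) (b : Fin 3) :
    ‖fderiv ℝ (fun x => ((tr N φ x : ℝ) : ℂ)) x (Pi.single i (Pi.single b 1))‖ ^ 2 =
      ∏ j, ∏ c, G φ (i, b) (j, c) (x j c) := by
  rw [fderiv_tr hφ, Complex.norm_real, Real.norm_eq_abs, sq_abs,
    ← Fintype.prod_prod_type' (fun (j : Fin N) (c : Fin 3) => G φ (i, b) (j, c) (x j c)),
    ← Finset.prod_erase_mul Finset.univ _ (Finset.mem_univ (i, b)), mul_pow, ← Finset.prod_pow]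
  congr 1
  · refine Finset.prod_congr rfl fun q hq => ?_
    have hne : q ≠ (i, b) := Finset.ne_of_mem_erase hq
    unfold G
    rw [if_neg hne]
  · unfold G
    rw [if_pos rfl]

lemma G_nonneg (p q : Fin N × Fin 3) (s : ℝ) : 0 ≤ G φ p q s := sq_nonneg _

lemma continuous_G (hφ : ContDiff ℝ ∞ φ) (p q : Fin N × Fin 3) : Continuous (G φ p q) := by
  unfold G
  by_cases h : q = p
  · simp only [h, if_true]
    exact (hφ.continuous_deriv (by simp)).pow 2
  · simp only [h, if_false]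
    exact hφ.continuous.pow 2

lemma lint_G (hφ : ContDiff ℝ ∞ φ) {A D : ℝ} (hA0 : 0 < A)
    (hA : ∫ t in Set.Ico (0:ℝ) L, φ t ^ 2 = A)
    (hD : ∫ t in Set.Ico (0:ℝ) L, (deriv φ t) ^ 2 = D) (i : Fin N) (b : Fin 3) :
    ∫⁻ x in confBox N L, ENNReal.ofReal (∏ j, ∏ c, G φ (i, b) (j, c) (x j c)) =
      ENNReal.ofReal (D / A * (A ^ 3) ^ N) := by
  have hD0 : 0 ≤ D := by
    rw [← hD]
    exact integral_nonneg fun t => by positivity
  have h1 : ∀ x : Conf N, ENNReal.ofReal (∏ j, ∏ c, G φ (i, b) (j, c) (x j c)) =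
      ∏ j, ∏ c, ENNReal.ofReal (G φ (i, b) (j, c) (x j c)) := by
    intro x
    rw [ENNReal.ofReal_prod_of_nonneg
      (fun j _ => Finset.prod_nonneg fun c _ => G_nonneg _ _ _)]
    refine Finset.prod_congr rfl fun j _ => ?_
    rw [ENNReal.ofReal_prod_of_nonneg (fun c _ => G_nonneg _ _ _)]
  simp_rw [h1]
  rw [lint_prod (fun j c s => ENNReal.ofReal (G φ (i, b) (j, c) s))
    (fun j c => (continuous_G hφ _ _).measurable.ennreal_ofReal)]
  have h2 : ∀ j c, ∫⁻ t in Set.Ico (0:ℝ) L, ENNReal.ofReal (G φ (i, b) (j, c) t) =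
      ENNReal.ofReal (if (j, c) = (i, b) then D else A) := by
    intro j c
    by_cases h : (j, c) = (i, b)
    · rw [if_pos h]
      unfold G
      simp only [h, if_true]
      exact lint_one (hφ.continuous_deriv (by simp)) hD
    · rw [if_neg h]
      unfold G
      simp only [h, if_false]
      exact lint_one hφ.continuous hA
  simp_rw [h2]
  have h3 : ∀ q : Fin N × Fin 3, 0 ≤ (if q = (i, b) then D else A) := by
    intro q
    split_ifs
    · exact hD0
    · exact hA0.le
  rw [← Fintype.prod_prod_type' (fun (j : Fin N) (c : Fin 3) =>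
      ENNReal.ofReal (if (j, c) = (i, b) then D else A))]
  rw [← ENNReal.ofReal_prod_of_nonneg (fun q _ => h3 (q.1, q.2))]
  congr 1
  rw [← Finset.prod_erase_mul Finset.univ _ (Finset.mem_univ (i, b))]
  have h4 : ∏ q ∈ (Finset.univ : Finset (Fin N × Fin 3)).erase (i, b),
      (if (q.1, q.2) = (i, b) then D else A) = A ^ (3 * N - 1) := by
    rw [Finset.prod_congr rfl (fun q hq => if_neg (Finset.ne_of_mem_erase hq)),
      Finset.prod_const, Finset.card_erase_of_mem (Finset.mem_univ _), Finset.card_univ,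
      Fintype.card_prod, Fintype.card_fin, Fintype.card_fin, mul_comm N 3]
  rw [h4]
  simp only [if_true]
  have hN : 0 < N := i.pos
  obtain ⟨m, hm⟩ : ∃ m, 3 * N = m + 1 := ⟨3 * N - 1, by omega⟩
  rw [← pow_mul, hm, Nat.add_sub_cancel, pow_succ]
  field_simp

end ProductKAux

open ProductKAux

theorem isWave_tr {N : ℕ} {L : ℝ} {φ : ℝ → ℝ} (hφ : ContDiff ℝ ∞ φ)
    (hper : Function.Periodic φ L) : IsWave N L (fun x => ((tr N φ x : ℝ) : ℂ)) where
  smooth := Complex.ofRealCLM.contDiff.comp (contDiff_tr hφ)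
  periodic := by
    intro x i l
    congr 1
    unfold tr
    refine Finset.prod_congr rfl fun j _ => ?_
    by_cases hj : j = i
    · subst hj
      unfold F
      refine Finset.prod_congr rfl fun b _ => ?_
      rw [Pi.add_apply, Pi.single_eq_same, Pi.add_apply]
      unfold lat
      rw [mul_comm]
      exact (hper.int_mul (l b)) _
    · rw [Pi.add_apply, Pi.single_eq_of_ne hj, add_zero]
  symm := by
    intro x σ
    congr 1
    unfold tr
    exact Equiv.prod_comp σ (fun i => F φ (x i))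

/-- `A = ∫_0^L φ²` -/
theorem mass_tr {N : ℕ} {L : ℝ} (hL : 0 < L) {φ : ℝ → ℝ} (hφ : ContDiff ℝ ∞ φ) {A : ℝ}
    (hA : ∫ t in Set.Ico (0:ℝ) L, φ t ^ 2 = A) :
    mass N L (fun x => ((tr N φ x : ℝ) : ℂ)) = ENNReal.ofReal ((A ^ 3) ^ N) := by
  have hA0 : 0 ≤ A := by
    rw [← hA]
    exact integral_nonneg fun t => by positivity
  unfold mass
  have h1 : ∀ x : Conf N, ENNReal.ofReal (‖((tr N φ x : ℝ) : ℂ)‖ ^ 2) =
      ∏ i, ∏ b, ENNReal.ofReal (φ (x i b) ^ 2) := by
    intro x
    rw [Complex.norm_real, Real.norm_eq_abs, sq_abs]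
    unfold tr F
    rw [← Finset.prod_pow, ENNReal.ofReal_prod_of_nonneg (fun i _ => sq_nonneg _)]
    refine Finset.prod_congr rfl fun i _ => ?_
    rw [← Finset.prod_pow, ENNReal.ofReal_prod_of_nonneg (fun b _ => sq_nonneg _)]
  simp_rw [h1]
  rw [lint_prod (fun _ _ t => ENNReal.ofReal (φ t ^ 2))
    (fun _ _ => (hφ.continuous.pow 2).measurable.ennreal_ofReal)]
  simp_rw [lint_one hφ.continuous hA]
  rw [Finset.prod_const, Finset.prod_const, Finset.card_univ, Finset.card_univ, Fintype.card_fin,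
    Fintype.card_fin, ← ENNReal.ofReal_pow hA0, ← ENNReal.ofReal_pow (by positivity)]

theorem kinetic_tr {N : ℕ} {L : ℝ} (hL : 0 < L) {φ : ℝ → ℝ} (hφ : ContDiff ℝ ∞ φ) {A D : ℝ}
    (hA0 : 0 < A) (hA : ∫ t in Set.Ico (0:ℝ) L, φ t ^ 2 = A)
    (hD : ∫ t in Set.Ico (0:ℝ) L, (deriv φ t) ^ 2 = D) :
    kinetic N L (fun x => ((tr N φ x : ℝ) : ℂ)) ≤
      ENNReal.ofReal (N * (3 / 2 * (D / A)) * (A ^ 3) ^ N) := by
  have hD0 : 0 ≤ D := by
    rw [← hD]
    exact integral_nonneg fun t => by positivity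
  unfold kinetic
  have h1 : ∀ x : Conf N, ENNReal.ofReal (1 / 2 * ∑ i, ∑ b,
      ‖fderiv ℝ (fun x => ((tr N φ x : ℝ) : ℂ)) x (Pi.single i (Pi.single b 1))‖ ^ 2) =
      ENNReal.ofReal (1 / 2) * ∑ i, ∑ b,
        ENNReal.ofReal (∏ j, ∏ c, G φ (i, b) (j, c) (x j c)) := by
    intro x
    rw [ENNReal.ofReal_mul (by norm_num), ENNReal.ofReal_sum_of_nonneg
      (fun i _ => Finset.sum_nonneg fun b _ => sq_nonneg _)]
    congr 1
    refine Finset.sum_congr rfl fun i _ => ?_
    rw [ENNReal.ofReal_sum_of_nonneg (fun b _ => sq_nonneg _)]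
    refine Finset.sum_congr rfl fun b _ => ?_
    rw [norm_fderiv_sq hφ]
  simp_rw [h1]
  have hm : ∀ (i : Fin N) (b : Fin 3), Measurable fun x : Conf N =>
      ENNReal.ofReal (∏ j, ∏ c, G φ (i, b) (j, c) (x j c)) := by
    intro i b
    refine Measurable.ennreal_ofReal ?_
    refine Finset.measurable_prod _ fun j _ => Finset.measurable_prod _ fun c _ => ?_
    exact (continuous_G hφ _ _).measurable.comp
      ((measurable_pi_apply c).comp (measurable_pi_apply j))
  rw [lintegral_const_mul _ (Finset.measurable_sum _ fun i _ =>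
      Finset.measurable_sum _ fun b _ => hm i b),
    lintegral_finsetSum _ (fun i _ => Finset.measurable_sum _ fun b _ => hm i b)]
  simp_rw [lintegral_finsetSum _ (fun b _ => hm _ b), lint_G hφ hA0 hA hD]
  rw [Finset.sum_const, Finset.sum_const, Finset.card_univ, Finset.card_univ, Fintype.card_fin,
    Fintype.card_fin, nsmul_eq_mul, nsmul_eq_mul, ← ENNReal.ofReal_natCast, ← ENNReal.ofReal_natCast,
    ← ENNReal.ofReal_mul (by positivity), ← ENNReal.ofReal_mul (by positivity),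
    ← ENNReal.ofReal_mul (by norm_num)]
  refine ENNReal.ofReal_le_ofReal (le_of_eq ?_)
  push_cast
  ring

end Pool.Agent.P76b
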