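import Pool.Agent.Lib.P76b.SiteDefs

/-! # P76b.SiteTr: the trial function `Tr` (facts on `site` are hypotheses here; they are Site1D)

At each `x` at most one `α` (the vector of sites of the particles) has `trc α` not zero near `x`:
if `α i b ≠` the site of `x i b` for some `i, b` then `trc α = 0` near `x` (`hzero`, continuity of the
coordinate projections).  So near `x` the sum `Tr` is one term or zero, and the squares of the values and of
the derivatives add up.  Symmetry: `trc α (x ∘ σ) = trc (α ∘ σ⁻¹) x` and `orb a` is stable under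
`α ↦ α ∘ σ`. -/

open MeasureTheory Filter Topology
open scoped ENNReal NNReal BigOperators ContDiff

namespace Pool.Agent.P76b

open Pool.Agent.P76s

variable {N m : ℕ} {L : ℝ} {φ : ℝ → ℝ}

namespace SiteTrAux

lemma norm_sum_sq {ι E : Type*} [NormedAddCommGroup E] (s : Finset ι) (g : ι → E)
    (h : ∀ i ∈ s, ∀ j ∈ s, i ≠ j → g i = 0 ∨ g j = 0) :
    ‖∑ i ∈ s, g i‖ ^ 2 = ∑ i ∈ s, ‖g i‖ ^ 2 := by
  by_cases h0 : ∀ i ∈ s, g i = 0
  · rw [Finset.sum_eq_zero h0, norm_zero, Finset.sum_eq_zero fun i hi => by rw [h0 i hi, norm_zero]; ring]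
    ring
  · push Not at h0
    obtain ⟨i, hi, hne⟩ := h0
    have h1 : ∀ j ∈ s, j ≠ i → g j = 0 := fun j hj hji =>
      (h j hj i hi hji).resolve_right hne
    rw [Finset.sum_eq_single_of_mem i hi h1, Finset.sum_eq_single_of_mem i hi]
    intro j hj hji
    rw [h1 j hj hji, norm_zero]
    ring

/-- all particles are at the sites `α` -/
def At (L : ℝ) (α : Fin N → Fin 3 → Fin m) (x : Conf N) : Prop :=
  ∀ i b, round (x i b / (L / m)) % (m : ℤ) = ((α i b : ℕ) : ℤ)

lemma At_unique {α β : Fin N → Fin 3 → Fin m} {x : Conf N} (h : At L α x) (h' : At L β x) :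
    α = β := by
  funext i b
  apply Fin.ext
  have h1 := (h i b).symm.trans (h' i b)
  exact_mod_cast h1

lemma trc_eq_zero {α : Fin N → Fin 3 → Fin m} {x : Conf N} {i : Fin N} {b : Fin 3}
    (h : site m L φ (α i b) (x i b) = 0) : trc N m L φ α x = 0 := by
  unfold trc trf
  exact Finset.prod_eq_zero (Finset.mem_univ i) (Finset.prod_eq_zero (Finset.mem_univ b) h)

lemma trc_eq_zero_of_not {α : Fin N → Fin 3 → Fin m} {x : Conf N} (h : ¬ At L α x) :
    trc N m L φ α x = 0 := by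
  unfold At at h
  push Not at h
  obtain ⟨i, b, h⟩ := h
  refine trc_eq_zero (i := i) (b := b) ?_
  unfold site
  rw [if_neg h]

lemma trc_near_zero (hzero : ∀ (j : Fin m) (t : ℝ),
      round (t / (L / m)) % (m : ℤ) ≠ ((j : ℕ) : ℤ) → ∀ᶠ s in 𝓝 t, site m L φ j s = 0)
    {α : Fin N → Fin 3 → Fin m} {x : Conf N} (h : ¬ At L α x) :
    ∀ᶠ y in 𝓝 x, trc N m L φ α y = 0 := by
  unfold At at h
  push Not at h
  obtain ⟨i, b, h⟩ := h
  have h1 := hzero (α i b) (x i b) h
  have hc : Continuous fun y : Conf N => y i b := by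
    exact (continuous_apply b).comp (continuous_apply i)
  have h2 := hc.continuousAt (x := x)
  filter_upwards [h2.eventually h1] with y hy
  exact trc_eq_zero hy

lemma contDiff_trc (hsm : ∀ j : Fin m, ContDiff ℝ ∞ (site m L φ j))
    (α : Fin N → Fin 3 → Fin m) : ContDiff ℝ ∞ (trc N m L φ α) := by
  unfold trc trf
  refine contDiff_prod fun i _ => contDiff_prod fun b _ => ?_
  exact (hsm (α i b)).comp ((contDiff_apply ℝ ℝ b).comp (contDiff_apply ℝ (Fin 3 → ℝ) i))

lemma contDiff_trcC (hsm : ∀ j : Fin m, ContDiff ℝ ∞ (site m L φ j))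
    (α : Fin N → Fin 3 → Fin m) : ContDiff ℝ ∞ (fun x => ((trc N m L φ α x : ℝ) : ℂ)) :=
  Complex.ofRealCLM.contDiff.comp (contDiff_trc hsm α)

lemma trc_shift (hper : ∀ j : Fin m, Function.Periodic (site m L φ j) L)
    (α : Fin N → Fin 3 → Fin m) (x : Conf N) (i : Fin N) (n : Fin 3 → ℤ) :
    trc N m L φ α (x + Pi.single i (lat L n)) = trc N m L φ α x := by
  unfold trc trf
  refine Finset.prod_congr rfl fun j _ => Finset.prod_congr rfl fun b _ => ?_
  by_cases hj : j = i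
  · subst hj
    have h1 := ((hper (α j b)).int_mul (n b)) (x j b)
    rw [Pi.add_apply, Pi.single_eq_same]
    show site m L φ (α j b) (x j b + L * (n b : ℝ)) = _
    rw [mul_comm L]
    exact h1
  · rw [Pi.add_apply, Pi.single_eq_of_ne hj, add_zero]

lemma trc_perm (α : Fin N → Fin 3 → Fin m) (x : Conf N) (σ : Equiv.Perm (Fin N)) :
    trc N m L φ α (x ∘ σ) = trc N m L φ (α ∘ (σ⁻¹ : Equiv.Perm (Fin N))) x := by
  unfold trc trf
  rw [← Equiv.prod_comp σ (fun i => ∏ b, site m L φ ((α ∘ (σ⁻¹ : Equiv.Perm (Fin N))) i b) (x i b))]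
  refine Finset.prod_congr rfl fun i _ => Finset.prod_congr rfl fun b _ => ?_
  simp

lemma mem_orb {a α : Fin N → Fin 3 → Fin m} :
    α ∈ orb a ↔ ∃ τ : Equiv.Perm (Fin N), a ∘ τ = α := by
  unfold orb
  rw [Finset.mem_image]
  constructor
  · rintro ⟨τ, _, h⟩
    exact ⟨τ, h⟩
  · rintro ⟨τ, h⟩
    exact ⟨τ, Finset.mem_univ _, h⟩

lemma orb_comp {a α : Fin N → Fin 3 → Fin m} (h : α ∈ orb a) (σ : Equiv.Perm (Fin N)) :
    α ∘ σ ∈ orb a := by
  rw [mem_orb] at h ⊢
  obtain ⟨τ, rfl⟩ := h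
  exact ⟨τ * σ, by rw [Equiv.Perm.coe_mul]; rfl⟩

lemma Tr_ofReal (a : Fin N → Fin 3 → Fin m) :
    (fun x => ((Tr N m L φ a x : ℝ) : ℂ)) =
      fun x => ∑ α ∈ orb a, ((trc N m L φ α x : ℝ) : ℂ) := by
  funext x
  unfold Tr
  rw [Complex.ofReal_sum]

end SiteTrAux

open SiteTrAux

theorem isWave_Tr (hsm : ∀ j : Fin m, ContDiff ℝ ∞ (site m L φ j))
    (hper : ∀ j : Fin m, Function.Periodic (site m L φ j) L) (a : Fin N → Fin 3 → Fin m) :
    IsWave N L (fun x => ((Tr N m L φ a x : ℝ) : ℂ)) where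
  smooth := by
    rw [Tr_ofReal]
    exact ContDiff.sum fun α _ => contDiff_trcC hsm α
  periodic := by
    intro x i n
    congr 1
    unfold Tr
    exact Finset.sum_congr rfl fun α _ => trc_shift hper α x i n
  symm := by
    intro x σ
    congr 1
    unfold Tr
    refine Finset.sum_nbij' (fun α => α ∘ (σ⁻¹ : Equiv.Perm (Fin N))) (fun α => α ∘ σ) ?_ ?_ ?_ ?_ ?_
    · intro α hα
      exact orb_comp hα _
    · intro α hα
      exact orb_comp hα _
    · intro α _
      funext i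
      simp
    · intro α _
      funext i
      simp
    · intro α _
      exact trc_perm α x σ

theorem norm_Tr_sq (a : Fin N → Fin 3 → Fin m) (x : Conf N) :
    ‖((Tr N m L φ a x : ℝ) : ℂ)‖ ^ 2 = ∑ α ∈ orb a, ‖((trc N m L φ α x : ℝ) : ℂ)‖ ^ 2 := by
  have h1 : ((Tr N m L φ a x : ℝ) : ℂ) = ∑ α ∈ orb a, ((trc N m L φ α x : ℝ) : ℂ) :=
    congrFun (Tr_ofReal a) x
  rw [h1]
  refine norm_sum_sq _ _ fun α _ β _ hne => ?_
  by_cases h : At L α x
  · right
    rw [trc_eq_zero_of_not fun h' => hne (At_unique h h'), Complex.ofReal_zero]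
  · left
    rw [trc_eq_zero_of_not h, Complex.ofReal_zero]

theorem norm_fderiv_Tr_sq (hsm : ∀ j : Fin m, ContDiff ℝ ∞ (site m L φ j))
    (hzero : ∀ (j : Fin m) (t : ℝ), round (t / (L / m)) % (m : ℤ) ≠ ((j : ℕ) : ℤ) →
      ∀ᶠ s in 𝓝 t, site m L φ j s = 0)
    (a : Fin N → Fin 3 → Fin m) (x : Conf N) (v : Conf N) :
    ‖fderiv ℝ (fun x => ((Tr N m L φ a x : ℝ) : ℂ)) x v‖ ^ 2 =
      ∑ α ∈ orb a, ‖fderiv ℝ (fun x => ((trc N m L φ α x : ℝ) : ℂ)) x v‖ ^ 2 := by
  have hd : ∀ α ∈ orb a, DifferentiableAt ℝ (fun x => ((trc N m L φ α x : ℝ) : ℂ)) x :=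
    fun α _ => (contDiff_trcC hsm α).differentiable (by simp) x
  rw [Tr_ofReal, fderiv_fun_sum hd, sum_apply]
  have hz : ∀ α : Fin N → Fin 3 → Fin m, ¬ At L α x →
      fderiv ℝ (fun x => ((trc N m L φ α x : ℝ) : ℂ)) x v = 0 := by
    intro α h
    have h1 : (fun x => ((trc N m L φ α x : ℝ) : ℂ)) =ᶠ[𝓝 x] fun _ => (0 : ℂ) := by
      filter_upwards [trc_near_zero hzero h] with y hy
      rw [hy, Complex.ofReal_zero]
    rw [h1.fderiv_eq]
    simp
  refine norm_sum_sq _ _ fun α _ β _ hne => ?_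
  by_cases h : At L α x
  · right
    exact hz β fun h' => hne (At_unique h h')
  · left
    exact hz α h

end Pool.Agent.P76b
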