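import Pool.Agent.Lib.P76b.Cluster
import Pool.Agent.Lib.P76b.Arith
import Pool.Agent.Lib.P76b.Bump
import Pool.Agent.Lib.P76g.Unif

/-! # P76b.Main: strong coupling, all densities above an explicit threshold -/

open MeasureTheory Filter Topology
open scoped ENNReal NNReal BigOperators ContDiff

namespace Pool.Agent.P76b

open Pool.Agent.P76s Pool.Agent.P76s.SimpleLowerAux

variable {v : E3 → ℝ}

theorem e_lower (hv : Integrable v) (hv0 : ∀ x, 0 ≤ v x) (hne : 0 < ∫ x, v x) {M : ℝ}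
    (hM : ∀ x, v x ≤ M) {g ρ e : ℝ} {u : E3 → ℝ} (hg : 0 < g) (hρ : 0 < ρ)
    (h : IsSimpleSolution (fun x => g * v x) ρ u e) (hu1 : ∀ᵐ x, u x ≤ 1) :
    g / 2 * (ρ * (∫ x, v x) - M) ≤ e := by
  have hv0g : ∀ x, 0 ≤ g * v x := fun x => mul_nonneg hg.le (hv0 x)
  have hu0 := nonneg_of_le_one hρ (hv.const_mul g) hv0g h hu1
  have hu : ∀ᵐ x, 0 ≤ u x ∧ u x ≤ 1 := by filter_upwards [hu0, hu1] with x h1 h2 using ⟨h1, h2⟩
  have h1 := int_u_eq (hv.const_mul g) hv0g (by rw [P76g.int_scaled]; positivity) hρ h hu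
  have h2 := P76g.e_scaled hv h
  have h3 : ∫ x, u x * v x ≤ ∫ x, M * u x := by
    refine integral_mono_ae (P76g.uv_scaled hg hv h) (h.int_u.const_mul M) ?_
    filter_upwards [hu0] with x hx
    have hx' : 0 ≤ u x := hx
    nlinarith [hM x]
  rw [integral_const_mul] at h3
  have h4 : ρ * ∫ x, u x * v x ≤ M := by
    calc ρ * ∫ x, u x * v x ≤ ρ * (M * ∫ x, u x) := by gcongr
      _ = M * (ρ * ∫ x, u x) := by ring
      _ = M := by rw [h1, mul_one]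
  rw [h2]
  nlinarith

theorem main (hvm : Measurable v) (hv : Integrable v) (hv0 : ∀ x, 0 ≤ v x) {M R ρs : ℝ}
    (hR : 0 < R) (hM : ∀ x, v x ≤ M) (hsupp : ∀ x : E3, (∃ b, R ≤ |x b|) → v x = 0)
    (hρs : 0 < ρs)
    (hcase : (9 / 8 * (M * R ^ 3) < ∫ x, v x ∧ M < ρs * ∫ x, v x) ∨
      (M * R ^ 3 < ∫ x, v x ∧ M < 4 * R ^ 3 * ((∫ x, v x) - M * R ^ 3) * ρs ^ 2)) :
    ∃ g₁ > 0, ∃ c > 0, ∀ g ≥ g₁, ∀ ρ ≥ ρs, ∃ N₀ : ℕ, ∀ (u : E3 → ℝ) (e : ℝ),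
      IsSimpleSolution (fun x => g * v x) ρ u e → (∀ᵐ x, u x ≤ 1) → ∀ N ≥ N₀,
      groundEnergy N ((N / ρ) ^ (1 / 3 : ℝ))
        (periodize ((N / ρ) ^ (1 / 3 : ℝ)) (pot fun x => g * v x)) ≤
        ENNReal.ofReal ((e - c * g * ρ) * N) := by
  have hM0 : 0 ≤ M := (hv0 0).trans (hM 0)
  set V := ∫ x, v x with hV
  have hne : 0 < V := by
    have h0 : 0 ≤ M * R ^ 3 := by positivity
    rcases hcase with ⟨h1, -⟩ | ⟨h1, -⟩ <;> nlinarith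
  obtain ⟨ℓ₁, hℓ₁, η, hη, hthr⟩ := threshold hM0 hR hρs hcase
  set ℓ₀ := (R + ℓ₁) / 2 with hℓ₀
  have hRℓ : R < ℓ₀ := by rw [hℓ₀]; linarith
  have hℓℓ : ℓ₀ < ℓ₁ := by rw [hℓ₀]; linarith
  have hℓ0 : 0 < ℓ₀ := by linarith
  have hℓ1 : 0 < ℓ₁ := by linarith
  set t₀ := (1 - R / ℓ₀) / 2 with ht₀
  have hRq : R / ℓ₀ < 1 := by rw [div_lt_one hℓ0]; exact hRℓ
  have hRq0 : 0 < R / ℓ₀ := by positivity
  have ht0 : 0 < t₀ := by rw [ht₀]; linarith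
  have ht1 : t₀ < 1 / 2 := by rw [ht₀]; linarith
  have ht2 : (1 - 2 * t₀) * ℓ₀ = R := by rw [ht₀]; field_simp; ring
  obtain ⟨θ, hθ, hθper, hθsup, hA1⟩ := exists_theta ht0 ht1
  set A₁ := ∫ t in Set.Ico (0:ℝ) 1, θ t ^ 2 with hA₁
  set D₁ := ∫ t in Set.Ico (0:ℝ) 1, (deriv θ t) ^ 2 with hD₁
  have hD1 : 0 ≤ D₁ := integral_nonneg fun t => by positivity
  set K := D₁ / A₁ with hK
  have hK0 : 0 ≤ K := by positivity
  refine ⟨6 * K / (R ^ 2 * η * ρs) + 1, by positivity, η / 4, by positivity, ?_⟩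
  intro g hg ρ hρ
  have hg' : 6 * K / (R ^ 2 * η * ρs) ≤ g := by linarith
  have hg0 : 0 < g := by
    have : 0 ≤ 6 * K / (R ^ 2 * η * ρs) := by positivity
    linarith
  have hρ0 : 0 < ρ := lt_of_lt_of_le hρs hρ
  obtain ⟨N₀, hN₀⟩ := eventually_atTop.1 ((tendsto_side hρ0).eventually_ge_atTop
    (max ℓ₀ (ℓ₀ * ℓ₁ / (ℓ₁ - ℓ₀))))
  refine ⟨max N₀ 1, ?_⟩
  intro u e hsol hu1 N hN
  have hNpos : 0 < N := lt_of_lt_of_le one_pos (le_trans (le_max_right _ _) hN)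
  have hNpos' : (0 : ℝ) < N := by exact_mod_cast hNpos
  have hLbig := hN₀ N (le_trans (le_max_left _ _) hN)
  set L := ((N : ℝ) / ρ) ^ (1 / 3 : ℝ) with hL
  have hL3 : L ^ 3 = N / ρ := side_cube hρ0 N
  have hLℓ : ℓ₀ ≤ L := (le_max_left _ _).trans hLbig
  have hLℓ' : ℓ₀ * ℓ₁ / (ℓ₁ - ℓ₀) ≤ L := (le_max_right _ _).trans hLbig
  have hL0 : 0 < L := by linarith
  set m := ⌊L / ℓ₀⌋₊ with hm
  have hm0 : 0 < m := Nat.floor_pos.2 (by rw [le_div_iff₀ hℓ0]; linarith)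
  have hm0' : (0 : ℝ) < m := by exact_mod_cast hm0
  have hm1 : (m : ℝ) ≤ L / ℓ₀ := Nat.floor_le (by positivity)
  have hm2 : L / ℓ₀ < m + 1 := Nat.lt_floor_add_one _
  have hcell1 : ℓ₀ ≤ L / m := by
    rw [le_div_iff₀ hm0']
    rw [le_div_iff₀ hℓ0] at hm1
    linarith
  have hcell2 : L / m ≤ ℓ₁ := by
    rw [div_le_iff₀ hm0']
    have h1 : ℓ₀ * ℓ₁ ≤ L * (ℓ₁ - ℓ₀) := by
      rwa [div_le_iff₀ (by linarith)] at hLℓ'
    rw [div_lt_iff₀ hℓ0] at hm2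
    -- L < (m + 1) ℓ₀
    have h2 : L * ℓ₁ ≤ (m + 1) * ℓ₀ * ℓ₁ := by gcongr
    have h3 : L * ℓ₀ ≤ ℓ₁ * m * ℓ₀ := by nlinarith
    exact le_of_mul_le_mul_right h3 hℓ0
  set φ : ℝ → ℝ := fun t => θ (m * t / L) with hφ
  have hdata : SiteData m L φ t₀ := by
    refine ⟨hm0, hL0, ?_, ?_, ht1, ?_⟩
    · exact hθ.comp ((contDiff_const.mul contDiff_id).div_const L)
    · intro t
      have h1 : (m : ℝ) * (t + L / m) / L = m * t / L + 1 := by field_simp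
      simp only [hφ]
      rw [h1]
      exact hθper _
    · intro t ht
      have h1 : t / (L / m) = m * t / L := by field_simp
      rw [h1]
      exact hθsup _ ht
  have hA := scale_sq hθ hθper hL0 hm0
  have hD := scale_deriv hθ hθper hL0 hm0
  have hRm : R ≤ (1 - 2 * t₀) * (L / m) := by
    have h1 : 0 ≤ 1 - 2 * t₀ := by linarith
    calc R = (1 - 2 * t₀) * ℓ₀ := ht2.symm
      _ ≤ _ := by gcongr
  obtain ⟨a, ha⟩ := exists_same N hm0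
  have hup := cluster_upper (N := N) hdata (A := L * A₁) (D := (m : ℝ) ^ 2 / L * D₁) (R := R)
    (M := g * M) (by positivity) hA hD hRm (by positivity) (w := pot fun x => g * v x)
    (fun y => ENNReal.ofReal_le_ofReal
      (mul_le_mul_of_nonneg_left (hM (WithLp.toLp 2 y)) hg0.le))
    (fun y hy => by
      unfold pot
      have h1 : v (WithLp.toLp 2 y) = 0 := hsupp _ hy
      simp only [h1, mul_zero, ENNReal.ofReal_zero]) a
  refine hup.trans (ENNReal.ofReal_le_ofReal ?_)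
  -- the arithmetic
  set ℓ := L / m with hℓ
  have hℓpos : 0 < ℓ := by positivity
  have hRℓ' : R ≤ ℓ := hRℓ.le.trans hcell1
  have hνeq : ρ * ℓ ^ 3 = (N : ℝ) / m ^ 3 := by
    rw [hℓ, div_pow, hL3]
    field_simp
  set k := N / m ^ 3 with hk
  have hkν : (k : ℝ) ≤ ρ * ℓ ^ 3 := by
    rw [hνeq, hk]
    have := @Nat.cast_div_le ℝ _ _ _ N (m ^ 3)
    push_cast at this ⊢
    exact this
  have hth := hthr ρ hρ ℓ hRℓ' hcell2 k hkν
  have hlow := e_lower hv hv0 hne hM hg0 hρ0 hsol hu1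
  have hDA : (m : ℝ) ^ 2 / L * D₁ / (L * A₁) = K / ℓ ^ 2 := by
    rw [hK, hℓ]
    field_simp
  have hsame : (same a : ℝ) = N / 2 * (2 * (k : ℝ) - k * (k + 1) / (ρ * ℓ ^ 3)) := by
    rw [ha, hνeq]
    field_simp
  have hKR : K / ℓ ^ 2 ≤ K / R ^ 2 := by gcongr
  have hgK : 3 / 2 * (K / R ^ 2) ≤ g * (η * ρ) / 4 := by
    rw [div_le_iff₀ (by positivity)] at hg'
    have h1 : 6 * K ≤ g * (R ^ 2 * η * ρ) := hg'.trans (by gcongr)
    have h2 : 3 / 2 * (K / R ^ 2) = 6 * K / (4 * R ^ 2) := by ring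
    rw [h2, div_le_iff₀ (by positivity)]
    nlinarith
  rw [hDA, hsame]
  set H := 2 * (k : ℝ) - k * (k + 1) / (ρ * ℓ ^ 3) with hH
  have hfin : 3 / 2 * (K / ℓ ^ 2) + g * M * (1 / 2 * H) ≤ e - η / 4 * g * ρ := by
    have h1 : 3 / 2 * (K / ℓ ^ 2) ≤ g * (η * ρ) / 4 :=
      (mul_le_mul_of_nonneg_left hKR (by norm_num)).trans hgK
    have h2 := mul_le_mul_of_nonneg_left hth (show 0 ≤ g / 2 by positivity)
    have h3 : g / 2 * (η * ρ) ≤ g / 2 * (ρ * V - M) - g * M * (1 / 2 * H) := by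
      refine h2.trans (le_of_eq ?_)
      ring
    linarith
  calc (N : ℝ) * (3 / 2 * (K / ℓ ^ 2)) + g * M * (N / 2 * H)
      = (3 / 2 * (K / ℓ ^ 2) + g * M * (1 / 2 * H)) * N := by ring
    _ ≤ (e - η / 4 * g * ρ) * N := by gcongr

end Pool.Agent.P76b
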