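import Pool.Agent.Lib.P76b.SiteDefs

/-! # P76b.Site1D

`round (t/ℓ)` (`ℓ = L/m`) is locally constant where `|t/ℓ - round (t/ℓ)| < 1/2`, and `φ` vanishes near the
other points (there `|s/ℓ - round (s/ℓ)| > t₀` for `s` near `t`; distance to the integers is continuous).
Integrals: `site j t = site 0 (t - j ℓ)`, so `∫_0^L site j ^ 2` does not depend on `j`
(`Function.Periodic` with period `L`), and the sum over `j` is `∫_0^L φ ^ 2` (exactly one `j` is active at
each `t`).  The same for the derivatives. -/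

open MeasureTheory Filter Topology
open scoped ENNReal NNReal BigOperators ContDiff

namespace Pool.Agent.P76b

open Pool.Agent.P76s

variable {m : ℕ} {L : ℝ} {φ : ℝ → ℝ} {t₀ : ℝ}

namespace Site1DAux

theorem dist_round (x s : ℝ) : |x - round x| ≤ |x - s| + |s - round s| :=
  (round_le x (round s)).trans (abs_sub_le _ _ _)

theorem round_eq_of {s : ℝ} {z : ℤ} (h : |s - z| < 1 / 2) : round s = z := by
  have h1 := round_le s z
  have h2 : |((round s - z : ℤ) : ℝ)| < 1 := by
    push_cast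
    calc |(round s : ℝ) - z| ≤ |(round s : ℝ) - s| + |s - z| := abs_sub_le _ _ _
      _ = |s - round s| + |s - z| := by rw [abs_sub_comm]
      _ < 1 := by linarith
  have h3 : |round s - z| < 1 := by exact_mod_cast h2
  have := Int.abs_lt_one_iff.1 h3
  omega

theorem ev_close (ℓ t : ℝ) {ε : ℝ} (hε : 0 < ε) : ∀ᶠ s in 𝓝 t, |s / ℓ - t / ℓ| < ε := by
  have h : ContinuousAt (fun s : ℝ => s / ℓ) t := (continuous_id.div_const ℓ).continuousAt
  have := h.eventually (Metric.ball_mem_nhds (t / ℓ) hε)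
  filter_upwards [this] with s hs
  rwa [Real.dist_eq] at hs

theorem local_cases (h : SiteData m L φ t₀) (t : ℝ) :
    (∀ᶠ s in 𝓝 t, round (s / (L / m)) = round (t / (L / m))) ∨ (∀ᶠ s in 𝓝 t, φ s = 0) := by
  rcases lt_or_ge |t / (L / m) - round (t / (L / m))| (1 / 2) with hlt | hge
  · left
    filter_upwards [ev_close (L / m) t (sub_pos.2 hlt)] with s hs
    apply round_eq_of
    have := abs_sub_le (s / (L / m)) (t / (L / m)) (round (t / (L / m)))
    linarith
  · right
    filter_upwards [ev_close (L / m) t (sub_pos.2 h.t0_lt)] with s hs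
    by_contra hne
    have h1 := h.sup s hne
    have h2 := dist_round (t / (L / m)) (s / (L / m))
    rw [abs_sub_comm (t / (L / m)) (s / (L / m))] at h2
    linarith

theorem site_near_eq (h : SiteData m L φ t₀) {j : Fin m} {t : ℝ}
    (heq : round (t / (L / m)) % (m : ℤ) = ((j : ℕ) : ℤ)) :
    ∀ᶠ s in 𝓝 t, site m L φ j s = φ s := by
  rcases local_cases h t with h1 | h1
  · filter_upwards [h1] with s hs
    unfold site
    rw [hs, if_pos heq]
  · filter_upwards [h1] with s hs
    unfold site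
    rw [hs, ite_self]

theorem exists_active (h : SiteData m L φ t₀) (t : ℝ) : ∃ j0 : Fin m, ∀ j : Fin m,
    (round (t / (L / m)) % (m : ℤ) = ((j : ℕ) : ℤ)) ↔ j = j0 := by
  have hm : (0:ℤ) < m := by exact_mod_cast h.m_pos
  have h1 := Int.emod_nonneg (round (t / (L / m))) hm.ne'
  have h2 := Int.emod_lt_of_pos (round (t / (L / m))) hm
  refine ⟨⟨(round (t / (L / m)) % (m : ℤ)).toNat, by omega⟩, fun j => ?_⟩
  rw [Fin.ext_iff]
  simp only
  omega

theorem site_shift (h : SiteData m L φ t₀) (j : Fin m) (t : ℝ) :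
    site m L φ j t = site m L φ ⟨0, h.m_pos⟩ (t - (j : ℕ) * (L / m)) := by
  have hm : (m : ℝ) ≠ 0 := by
    have := h.m_pos
    positivity
  have hℓ : L / (m : ℝ) ≠ 0 := div_ne_zero h.L_pos.ne' hm
  have e1 : (t - (j : ℕ) * (L / m)) / (L / m) = t / (L / m) - (((j : ℕ) : ℤ) : ℝ) := by
    rw [sub_div, mul_div_assoc, div_self hℓ, mul_one, Int.cast_natCast]
  have e2 : φ (t - (j : ℕ) * (L / m)) = φ t := h.per.sub_nat_mul_eq (j : ℕ)
  have e3 : (round (t / (L / m)) % (m : ℤ) = ((j : ℕ) : ℤ)) ↔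
      ((round (t / (L / m)) - ((j : ℕ) : ℤ)) % (m : ℤ) = ((0 : ℕ) : ℤ)) := by
    rw [Nat.cast_zero, ← Int.emod_eq_emod_iff_emod_sub_eq_zero,
      Int.emod_eq_of_lt (Int.natCast_nonneg _) (by exact_mod_cast j.2)]
  unfold site
  rw [e1, round_sub_intCast, e2]
  simp only [e3]

theorem Ico_eq' (g : ℝ → ℝ) {L : ℝ} (hL : 0 ≤ L) :
    ∫ t in Set.Ico (0:ℝ) L, g t = ∫ t in (0:ℝ)..L, g t := by
  rw [intervalIntegral.integral_of_le hL, MeasureTheory.integral_Ico_eq_integral_Ioo,
    MeasureTheory.integral_Ioc_eq_integral_Ioo]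

theorem int_shift {g : ℝ → ℝ} (hL : 0 < L) (hg : Function.Periodic g L) (c : ℝ) :
    ∫ t in Set.Ico (0:ℝ) L, g (t - c) = ∫ t in Set.Ico (0:ℝ) L, g t := by
  rw [Ico_eq' _ hL.le, Ico_eq' _ hL.le, intervalIntegral.integral_comp_sub_right]
  have := hg.intervalIntegral_add_eq (0 - c) 0
  rw [zero_add] at this
  rw [← this]
  congr 1
  ring

theorem int_split {g : Fin m → ℝ → ℝ} {G : ℝ → ℝ} (hL : 0 < L) (j0 : Fin m)
    (hc : ∀ j, Continuous (g j)) (hper : ∀ j, Function.Periodic (g j) L)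
    (hs : ∀ j, ∃ c : ℝ, ∀ t, g j t = g j0 (t - c)) (hsum : ∀ t, ∑ j, g j t = G t) (j : Fin m) :
    ∫ t in Set.Ico (0:ℝ) L, g j t = (∫ t in Set.Ico (0:ℝ) L, G t) / m := by
  have h1 : ∀ j, ∫ t in Set.Ico (0:ℝ) L, g j t = ∫ t in Set.Ico (0:ℝ) L, g j0 t := by
    intro j
    obtain ⟨c, hc⟩ := hs j
    simp only [hc]
    exact int_shift hL (hper j0) c
  have h2 : ∫ t in Set.Ico (0:ℝ) L, G t = ∑ j, ∫ t in Set.Ico (0:ℝ) L, g j t := by
    rw [← MeasureTheory.integral_finsetSum]
    · simp only [hsum]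
    · intro j _
      exact ((hc j).integrableOn_Icc).mono_set Set.Ico_subset_Icc_self
  rw [h2, Finset.sum_congr rfl (fun j _ => h1 j), Finset.sum_const, Finset.card_univ,
    Fintype.card_fin, nsmul_eq_mul, h1 j]
  have hm : (m : ℝ) ≠ 0 := by
    have : 0 < m := lt_of_le_of_lt (Nat.zero_le _) j.2
    positivity
  rw [mul_div_cancel_left₀ _ hm]

theorem periodic_deriv' {f : ℝ → ℝ} {c : ℝ} (hper : Function.Periodic f c) :
    Function.Periodic (deriv f) c := by
  intro x
  have h : (fun y => f (y + c)) = f := funext hper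
  rw [← deriv_comp_add_const, h]

end Site1DAux

open Site1DAux

theorem site_near_zero (h : SiteData m L φ t₀) {j : Fin m} {t : ℝ}
    (hne : round (t / (L / m)) % (m : ℤ) ≠ ((j : ℕ) : ℤ)) :
    ∀ᶠ s in 𝓝 t, site m L φ j s = 0 := by
  rcases local_cases h t with h1 | h1
  · filter_upwards [h1] with s hs
    unfold site
    rw [hs, if_neg hne]
  · filter_upwards [h1] with s hs
    unfold site
    rw [hs, ite_self]

theorem contDiff_site (h : SiteData m L φ t₀) (j : Fin m) : ContDiff ℝ ∞ (site m L φ j) := by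
  rw [contDiff_iff_contDiffAt]
  intro t
  by_cases ht : round (t / (L / m)) % (m : ℤ) = ((j : ℕ) : ℤ)
  · exact h.smooth.contDiffAt.congr_of_eventuallyEq (site_near_eq h ht)
  · exact (contDiffAt_const (c := (0:ℝ))).congr_of_eventuallyEq (site_near_zero h ht)

theorem periodic_site (h : SiteData m L φ t₀) (j : Fin m) :
    Function.Periodic (site m L φ j) L := by
  intro t
  have hm : (m : ℝ) ≠ 0 := by
    have := h.m_pos
    positivity
  have hL := h.L_pos.ne'
  have e1 : (t + L) / (L / m) = t / (L / m) + (m : ℝ) := by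
    field_simp
  have e2 : φ (t + L) = φ t := by
    have := h.per.nat_mul m t
    rwa [mul_div_cancel₀ _ hm] at this
  unfold site
  rw [e1, round_add_natCast, Int.add_emod_right, e2]

theorem int_site_sq (h : SiteData m L φ t₀) (j : Fin m) {A : ℝ}
    (hA : ∫ t in Set.Ico (0:ℝ) L, φ t ^ 2 = A) :
    ∫ t in Set.Ico (0:ℝ) L, site m L φ j t ^ 2 = A / m := by
  rw [← hA]
  refine int_split (g := fun j t => site m L φ j t ^ 2) (G := fun t => φ t ^ 2) h.L_pos
    ⟨0, h.m_pos⟩ (fun j => (contDiff_site h j).continuous.pow 2)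
    (fun j t => by simp only; rw [periodic_site h j t])
    (fun j => ⟨(j : ℕ) * (L / m), fun t => by rw [site_shift h j t]⟩)
    (fun t => ?_) j
  obtain ⟨j0, hj0⟩ := exists_active h t
  rw [Finset.sum_eq_single j0]
  · unfold site
    rw [if_pos ((hj0 j0).2 rfl)]
  · intro j _ hj
    unfold site
    rw [if_neg (fun hc => hj ((hj0 j).1 hc))]
    simp
  · intro hc
    exact absurd (Finset.mem_univ _) hc

theorem int_site_deriv (h : SiteData m L φ t₀) (j : Fin m) {D : ℝ}
    (hD : ∫ t in Set.Ico (0:ℝ) L, (deriv φ t) ^ 2 = D) :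
    ∫ t in Set.Ico (0:ℝ) L, (deriv (site m L φ j) t) ^ 2 = D / m := by
  rw [← hD]
  refine int_split (g := fun j t => (deriv (site m L φ j) t) ^ 2)
    (G := fun t => (deriv φ t) ^ 2) h.L_pos
    ⟨0, h.m_pos⟩ (fun j => ((contDiff_site h j).continuous_deriv (by simp)).pow 2)
    (fun j t => by simp only; rw [periodic_deriv' (periodic_site h j) t])
    (fun j => ⟨(j : ℕ) * (L / m), fun t => ?_⟩)
    (fun t => ?_) j
  · have e : site m L φ j = fun t => site m L φ ⟨0, h.m_pos⟩ (t - (j : ℕ) * (L / m)) :=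
      funext (site_shift h j)
    rw [e, deriv_comp_sub_const]
  · obtain ⟨j0, hj0⟩ := exists_active h t
    rw [Finset.sum_eq_single j0]
    · have e : deriv (site m L φ j0) t = deriv φ t :=
        Filter.EventuallyEq.deriv_eq (site_near_eq h ((hj0 j0).2 rfl))
      rw [e]
    · intro j _ hj
      have e : deriv (site m L φ j) t = deriv (fun _ => (0:ℝ)) t :=
        Filter.EventuallyEq.deriv_eq (site_near_zero h (fun hc => hj ((hj0 j).1 hc)))
      rw [e]
      simp
    · intro hc
      exact absurd (Finset.mem_univ _) hc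

end Pool.Agent.P76b
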