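import Pool.Agent.Lib.P76s.Defs

/-! # P76b.SiteDefs: trial functions with prescribed occupation numbers of the sites -/

open MeasureTheory Filter Topology
open scoped ENNReal NNReal BigOperators ContDiff

namespace Pool.Agent.P76b

open Pool.Agent.P76s

/-- `φ` restricted to the intervals around the sites `j (L/m)`, modulo `L` -/
noncomputable def site (m : ℕ) (L : ℝ) (φ : ℝ → ℝ) (j : Fin m) (t : ℝ) : ℝ :=
  if round (t / (L / m)) % (m : ℤ) = ((j : ℕ) : ℤ) then φ t else 0

/-- a product of one-particle functions, one function per coordinate -/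
noncomputable def trf {N : ℕ} (f : Fin N → Fin 3 → ℝ → ℝ) (x : Conf N) : ℝ :=
  ∏ i, ∏ b, f i b (x i b)

/-- the product function with particle `i` at the site `α i` -/
noncomputable def trc (N m : ℕ) (L : ℝ) (φ : ℝ → ℝ) (α : Fin N → Fin 3 → Fin m) : Conf N → ℝ :=
  trf fun i b => site m L φ (α i b)

/-- the assignments with the same occupation numbers as `a` -/
noncomputable def orb {N m : ℕ} (a : Fin N → Fin 3 → Fin m) : Finset (Fin N → Fin 3 → Fin m) :=
  Finset.univ.image fun σ : Equiv.Perm (Fin N) => a ∘ σ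

/-- the trial function with the occupation numbers of `a` -/
noncomputable def Tr (N m : ℕ) (L : ℝ) (φ : ℝ → ℝ) (a : Fin N → Fin 3 → Fin m) (x : Conf N) : ℝ :=
  ∑ α ∈ orb a, trc N m L φ α x

/-- the number of pairs of particles at the same site -/
def same {N m : ℕ} (a : Fin N → Fin 3 → Fin m) : ℕ :=
  ∑ i, ∑ j ∈ Finset.Ioi i, if a i = a j then 1 else 0

structure SiteData (m : ℕ) (L : ℝ) (φ : ℝ → ℝ) (t₀ : ℝ) : Prop where
  m_pos : 0 < m
  L_pos : 0 < L
  smooth : ContDiff ℝ ∞ φ
  per : Function.Periodic φ (L / m)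
  t0_lt : t₀ < 1 / 2
  sup : ∀ t, φ t ≠ 0 → |t / (L / m) - round (t / (L / m))| < t₀

end Pool.Agent.P76b
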